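import Mathlib
import Pool.Agent.H.MP_937656_gt.F

namespace Pool.Agent.Results.MP_937656_gt.NoOther

open MeasureTheory Set Metric Pool.Agent.H.MP_937656_gt
open scoped RealInnerProductSpace Pointwise

/-- Euclidean space. -/
abbrev E (n : ℕ) := EuclideanSpace ℝ (Fin n)

/-- The unit sphere. -/
abbrev Sph (n : ℕ) := sphere (0 : E n) 1

/-- The radial function. -/
noncomputable def rad {n : ℕ} (K : Set (E n)) (u : E n) : ℝ := sSup {t : ℝ | 0 ≤ t ∧ t • u ∈ K}

/-- The unit sphere of a subspace. -/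
abbrev SubSph {n : ℕ} (H : Submodule ℝ (E n)) := sphere (0 : H) 1

/-- The inclusion of the unit sphere of a subspace in the unit sphere. -/
def inc {n : ℕ} (H : Submodule ℝ (E n)) (w : SubSph H) : Sph n :=
  ⟨w.1.1, mem_sphere_zero_iff_norm.2 (mem_sphere_zero_iff_norm.1 w.2)⟩

/-- Surface measure on the unit sphere of a subspace. -/
noncomputable def subSurf {n : ℕ} (H : Submodule ℝ (E n)) : Measure (SubSph H) :=
  (volume : Measure H).toSphere

/-- Integral over the unit sphere of a subspace. -/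
noncomputable def subInt {n : ℕ} (H : Submodule ℝ (E n)) (f : Sph n → ℝ) : ℝ :=
  ∫ w, f (inc H w) ∂subSurf H

/-- The spherical Radon transform: integral over the unit sphere of the hyperplane `v^⊥`. -/
noncomputable def radon {n : ℕ} (f : Sph n → ℝ) (v : Sph n) : ℝ := subInt (ℝ ∙ (v : E n))ᗮ f

/-- Surface measure on the unit sphere. -/
noncomputable def surf (n : ℕ) : Measure (Sph n) := (volume : Measure (E n)).toSphere

/-- Intersection body: the radial function is the Radon transform of a finite even measure. -/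
def IsIntersectionBody {n : ℕ} (K : Set (E n)) : Prop :=
  K = -K ∧ ∃ μ : Measure (Sph n), IsFiniteMeasure μ ∧ μ.map (fun u => -u) = μ ∧
    ∀ f : Sph n → ℝ, Continuous f → (∀ u, f (-u) = f u) →
      ∫ u, rad K u * f u ∂surf n = ∫ v, radon f v ∂μ

/-- Convex hull of finitely many points, with nonempty interior. -/
def IsPolytope {n : ℕ} (K : Set (E n)) : Prop :=
  ∃ S : Finset (E n), K = convexHull ℝ (S : Set (E n)) ∧ (interior K).Nonempty

/-- The polar body. -/
def pol {n : ℕ} (K : Set (E n)) : Set (E n) := {y | ∀ x ∈ K, ⟪x, y⟫ ≤ 1}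

theorem hyp {m : ℕ} (hm : 1 ≤ m) {K : Set (E (m + 1))} {ι : Type} [Finite ι] [Nonempty ι]
    (a : ι → E (m + 1) →ₗ[ℝ] ℝ) (hK : ∀ x, x ∈ K ↔ nm a x ≤ 1) {κ : ℝ} (κ0 : 0 < κ)
    (hκ : ∀ x, κ * ‖x‖ ≤ nm a x) (h : IsIntersectionBody K) :
    Hyp (volume : Measure (E m)) (volume : Measure (E (m + 1))) fun x => (nm a x)⁻¹ := by
  obtain ⟨-, μ, -, -, hμ⟩ := h
  rintro φ ⟨h1, h2, h3, h4⟩
  obtain ⟨R, R0, hR⟩ := supp_ball h2
  have np : ∀ u : Sph (m + 1), 0 < nm a u := fun u => lt_of_lt_of_le (by simpa using κ0) (hκ u)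
  have hrad : ∀ u : Sph (m + 1), rad K u = (nm a u)⁻¹ := by
    intro u
    have : {t : ℝ | 0 ≤ t ∧ t • (u : E (m + 1)) ∈ K} = Icc 0 (nm a u)⁻¹ := by
      ext t
      simp only [mem_ofPred_eq, mem_Icc]
      refine and_congr_right fun ht => ?_
      rw [hK, nm_smul a ht, ← le_div_iff₀ (np u), one_div]
    rw [rad, this, csSup_Icc (inv_pos.2 (np u)).le]
  let f : Sph (m + 1) → ℝ := fun u => ∫ r in Ioi (0 : ℝ), r ^ (m - 1) * φ (r • (u : E (m + 1)))
  have fc : Continuous f := by
    have := continuous_parametric_integral_of_continuous (μ := volume)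
      (f := fun (u : Sph (m + 1)) (r : ℝ) => r ^ (m - 1) * φ (r • (u : E (m + 1))))
      (by unfold Function.uncurry; fun_prop) (isCompact_Icc (a := 0) (b := R))
    convert this using 2 with u
    rw [integral_Icc_eq_integral_Ioc]
    refine setIntegral_eq_of_subset_of_forall_sdiff_eq_zero measurableSet_Ioi Ioc_subset_Ioi_self
      fun r hr => ?_
    have r0 : 0 < r := hr.1
    rw [hR _ (by
      rw [norm_smul, norm_eq_of_mem_sphere, mul_one, Real.norm_of_nonneg r0.le]
      exact le_of_not_ge fun h => hr.2 ⟨r0, h⟩), mul_zero]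
  have e := hμ f fc fun u => by simp only [f, coe_neg_sphere, smul_neg, h3]
  have li : LocallyIntegrable (fun x => (nm a x)⁻¹) (volume : Measure (E (m + 1))) := by
    refine locallyIntegrable_of_norm_le_rpow (C := κ⁻¹) (α := 1) (by simp) (by simp; omega)
      (ae_of_all _ fun x => ?_) (nm_cont a).measurable.inv.aestronglyMeasurable
    by_cases x0 : x = 0
    · simp [x0, nm]
    have p := mul_pos κ0 (norm_pos_iff.2 x0)
    rw [Real.rpow_neg_one, ← mul_inv, Real.norm_of_nonneg (inv_nonneg.2 (p.le.trans (hκ x)))]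
    exact inv_anti₀ p (hκ x)
  rw [polar volume (F := fun x => φ x * (nm a x)⁻¹)
    (li.integrable_smul_left_of_hasCompactSupport h1 h2)]
  have e2 : ∀ u : Sph (m + 1), ∫ r in Ioi (0 : ℝ), r ^ (Module.finrank ℝ (E (m + 1)) - 1) *
      (φ (r • (u : E (m + 1))) * (nm a (r • (u : E (m + 1))))⁻¹) = rad K u * f u := by
    intro u
    rw [hrad, ← integral_const_mul]
    refine setIntegral_congr_fun measurableSet_Ioi fun r hr => ?_
    have r0 : 0 < r := hr
    have := np u
    obtain ⟨k, rfl⟩ := Nat.exists_eq_add_of_le' hm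
    simp only [nm_smul a r0.le, finrank_euclideanSpace, Fintype.card_fin, Nat.add_sub_cancel]
    field_simp
    ring
  simp only [e2]
  rw [surf] at e
  rw [e]
  refine integral_nonneg fun v => ?_
  have : Fact (Module.finrank ℝ (E (m + 1)) = m + 1) := ⟨by simp⟩
  have hr : Module.finrank ℝ (ℝ ∙ (v : E (m + 1)))ᗮ = m :=
    Submodule.finrank_orthogonal_span_singleton (ne_zero_of_mem_unit_sphere v)
  have : Nontrivial (ℝ ∙ (v : E (m + 1)))ᗮ := Module.nontrivial_of_finrank_pos (R := ℝ) (by omega)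
  have i : Integrable (fun y : (ℝ ∙ (v : E (m + 1)))ᗮ => φ y) volume :=
    Continuous.integrable_of_hasCompactSupport (by fun_prop)
      (HasCompactSupport.intro (isCompact_closedBall 0 R) fun y hy =>
        hR _ (le_of_not_ge fun h => hy (mem_closedBall_zero_iff.2 h)))
  have p := polar volume i
  rw [hr] at p
  have q : radon f v = ∫ y : (ℝ ∙ (v : E (m + 1)))ᗮ, φ y := by rw [p]; rfl
  let T : E m ≃L[ℝ] (ℝ ∙ (v : E (m + 1)))ᗮ := ContinuousLinearEquiv.ofFinrankEq (by simp [hr])
  obtain ⟨c, c0, hc⟩ := haar (volume : Measure (E m)) volume T.symm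
  have := hc fun y => φ (T y)
  simp only [T.apply_symm_apply] at this
  show 0 ≤ radon f v
  rw [q, this]
  exact mul_nonneg c0 (h4 (((ℝ ∙ (v : E (m + 1)))ᗮ).subtypeL.comp
    (T : E m →L[ℝ] (ℝ ∙ (v : E (m + 1)))ᗮ))
    (Subtype.val_injective.comp T.injective))

theorem result : ∀ n : ℕ, 5 ≤ n → ∀ K : Set (E n), IsPolytope K → IsIntersectionBody K →
    ∃ (N : ℕ) (v : Fin N → E n), Submodule.span ℝ (range v) = ⊤ ∧
      K = pol (∑ i, segment ℝ (-v i) (v i)) := by
  rintro n hn K ⟨S, rfl, x, hx⟩ h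
  obtain ⟨m, rfl⟩ : ∃ m, n = m + 1 := ⟨n - 1, by omega⟩
  have h0 : (0 : E (m + 1)) ∈ interior (convexHull ℝ (S : Set (E (m + 1)))) := by
    have hx' : -x ∈ convexHull ℝ (S : Set (E (m + 1))) := by
      rw [h.1]; simpa using interior_subset hx
    have := (convex_convexHull ℝ _).combo_interior_self_mem_interior hx hx' (a := 1 / 2)
      (b := 1 / 2) (by norm_num) (by norm_num) (by norm_num)
    simpa using this
  obtain ⟨ι, _, _, a, ha⟩ := hrep S h0
  obtain ⟨⟨κ, κ0, hκ⟩, he⟩ := nm_props a ha (S.finite_toSet.isCompact_convexHull ℝ).isBounded h.1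
  obtain ⟨N, l, hl⟩ := level1 volume a (by simpa using hn) (by simp) κ0 hκ he
    (hyp (by omega) a ha κ0 hκ h)
  let v : Fin N → E (m + 1) := fun i =>
    (InnerProductSpace.toDual ℝ _).symm (LinearMap.toContinuousLinearMap (l i))
  have hv : ∀ i y, ⟪v i, y⟫ = l i y := fun i y => InnerProductSpace.toDual_symm_apply
  refine ⟨N, v, ?_, ?_⟩
  · rw [← Submodule.orthogonal_eq_bot_iff, eq_bot_iff]
    intro y hy
    have h1 : ∀ i, l i y = 0 := fun i => by
      rw [← hv]; exact hy _ (Submodule.subset_span ⟨i, rfl⟩)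
    have h2 := hκ y
    simp only [hl, h1, abs_zero, Finset.sum_const_zero] at h2
    exact norm_le_zero_iff.1 (nonpos_of_mul_nonpos_right h2 κ0)
  · ext y
    rw [ha, hl]
    constructor
    · intro hy z hz
      obtain ⟨g, hg, rfl⟩ := (Set.mem_fintype_sum _ _).1 hz
      rw [sum_inner]
      refine (Finset.sum_le_sum fun i _ => ?_).trans hy
      obtain ⟨s, t, hs, ht, hst, e⟩ := hg i
      rw [← e, inner_add_left, real_inner_smul_left, real_inner_smul_left, inner_neg_left, hv]
      rcases abs_cases (l i y) with h | h <;> nlinarith [h.1, h.2]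
    · intro hy
      have := hy _ ((Set.mem_fintype_sum _ _).2 ⟨fun i => if 0 ≤ l i y then v i else -v i,
        fun i => by
          beta_reduce
          split_ifs
          exacts [right_mem_segment _ _ _, left_mem_segment _ _ _], rfl⟩)
      rw [sum_inner] at this
      refine le_of_eq_of_le (Finset.sum_congr rfl fun i _ => ?_) this
      split_ifs with h
      · rw [hv, abs_of_nonneg h]
      · rw [inner_neg_left, hv, abs_of_neg (not_le.1 h)]

end Pool.Agent.Results.MP_937656_gt.NoOther
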